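import Mathlib
import Pool.Agent.MP_61c0e4_al.Small
import Pool.Agent.MP_61c0e4_al.Prim

set_option autoImplicit false

/-! Inclusion and equality of rational subsets of free inverse monoids: a small counterexample
theorem with explicit elementary bounds, and primitive recursive decision procedures. -/

namespace Pool.Agent.Results.MP_61c0e4_al.SmallCounterexample

/-- A letter `(i, b)`: the generator `i` if `b = true`, its formal inverse if `b = false`. -/
abbrev Letter (k : ℕ) := Fin k × Bool

/-- The formal inverse of a word of the free monoid on the letters. -/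
def inv {k : ℕ} (u : FreeMonoid (Letter k)) : FreeMonoid (Letter k) :=
  FreeMonoid.ofList (((FreeMonoid.toList u).map (fun x => (x.1, !x.2))).reverse)

/-- The generating relations `u u⁻¹ u ∼ u` and `u u⁻¹ v v⁻¹ ∼ v v⁻¹ u u⁻¹`. -/
def Vagner (k : ℕ) (a b : FreeMonoid (Letter k)) : Prop :=
  (∃ u, a = u * inv u * u ∧ b = u) ∨
  (∃ u v, a = u * inv u * v * inv v ∧ b = v * inv v * u * inv u)

/-- The free inverse monoid of rank `k`. -/
abbrev FreeInverseMonoid (k : ℕ) := (conGen (Vagner k)).Quotient

/-- The canonical morphism from words to the free inverse monoid. -/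
def proj {k : ℕ} (w : List (Letter k)) : FreeInverseMonoid k :=
  ((FreeMonoid.ofList w : FreeMonoid (Letter k)) : FreeInverseMonoid k)

/-- The rational subset given by a nondeterministic finite automaton: the image of its
language. -/
def rat {k : ℕ} {σ : Type} (M : NFA (Letter k) σ) : Set (FreeInverseMonoid k) :=
  {m | ∃ w ∈ M.accepts, proj w = m}

/-- Bound for the height of the Munn tree of a counterexample, for automata with `m` and `n`
states: `4 k 2 ^ (3 m² + m + n² + 2 ^ (2 n² + n))`. -/
def heightBound (k m n : ℕ) : ℕ := 4 * k * 2 ^ (3 * m ^ 2 + m + n ^ 2 + 2 ^ (2 * n ^ 2 + n))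

/-- Bound for the length of a counterexample: `m V (V + 1)` with
`V = (2 k + 1) ^ heightBound k m n`. -/
def lengthBound (k m n : ℕ) : ℕ :=
  m * ((2 * k + 1) ^ heightBound k m n * ((2 * k + 1) ^ heightBound k m n + 1))

/-- All prefixes of `w` reduce in the free group to words of length at most `h`. This says that
the Munn tree of `w` has height at most `h`. -/
def HeightLE {k : ℕ} (w : List (Letter k)) (h : ℕ) : Prop :=
  ∀ u, u <+: w → (FreeGroup.mk u).norm ≤ h

/-- Coded finite automata: transitions, initial state, final states. -/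
abbrev Automaton (k : ℕ) := List (ℕ × Letter k × ℕ) × ℕ × List ℕ

/-- The coded automaton `A` accepts the word `w` along some sequence of states. -/
def Accepts {k : ℕ} (A : Automaton k) (w : List (Letter k)) : Prop :=
  ∃ s : List ℕ, s.length = w.length + 1 ∧ s.getD 0 0 = A.2.1 ∧ s.getD w.length 0 ∈ A.2.2 ∧
    ∀ (i : ℕ) (a : Letter k), w[i]? = some a → (s.getD i 0, a, s.getD (i + 1) 0) ∈ A.1

/-- The rational subset given by a coded automaton. -/
def rationalSubset {k : ℕ} (A : Automaton k) : Set (FreeInverseMonoid k) :=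
  {m | ∃ w : List (Letter k), Accepts A w ∧ proj w = m}

lemma proj_eq_iff {k : ℕ} (w w' : List (Letter k)) :
    proj w = proj w' ↔ Pool.Agent.FIM.Same w w' := by
  unfold proj
  rw [Con.eq]
  exact Pool.Agent.FIM.conGen_iff_same w w'

lemma subset_iff {k : ℕ} (p : Automaton k × Automaton k) :
    Pool.Agent.FIM.Check p ↔ rationalSubset p.1 ⊆ rationalSubset p.2 := by
  rw [Pool.Agent.FIM.check_iff]
  constructor
  · rintro h m ⟨w, hw, rfl⟩
    obtain ⟨w', h1, h2⟩ := h w ((Pool.Agent.FIM.accept_iff p.1 w).1 hw)
    exact ⟨w', (Pool.Agent.FIM.accept_iff p.2 w').2 h1, ((proj_eq_iff w w').2 h2).symm⟩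
  · intro h w hw
    obtain ⟨w', h1, h2⟩ := h ⟨w, (Pool.Agent.FIM.accept_iff p.1 w).2 hw, rfl⟩
    exact ⟨w', (Pool.Agent.FIM.accept_iff p.2 w').1 h1, (proj_eq_iff w w').1 h2.symm⟩

/-- **Inclusion and equality of rational subsets of the free inverse monoid of rank `k`.**
Inclusion is equivalent to a bounded condition: it suffices to look at the accepted words of the
first automaton (`m` states) whose Munn tree has height at most `heightBound k m n` and whose
length is at most `lengthBound k m n`, and at the accepted words of the second automaton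
(`n` states) of length at most `n (|w| + 1) (|w| + 2)`. Inclusion and equality are primitive
recursive. -/
theorem result (k : ℕ) :
    (∀ (σ₁ σ₂ : Type) [Fintype σ₁] [Fintype σ₂] (M₁ : NFA (Letter k) σ₁) (M₂ : NFA (Letter k) σ₂),
      rat M₁ ⊆ rat M₂ ↔
        ∀ w ∈ M₁.accepts,
          HeightLE w (heightBound k (Fintype.card σ₁) (Fintype.card σ₂)) →
          w.length ≤ lengthBound k (Fintype.card σ₁) (Fintype.card σ₂) →
          ∃ w' ∈ M₂.accepts,
            w'.length ≤ Fintype.card σ₂ * ((w.length + 1) * (w.length + 2)) ∧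
            proj w' = proj w) ∧
    PrimrecPred (fun p : Automaton k × Automaton k =>
      rationalSubset p.1 ⊆ rationalSubset p.2) ∧
    PrimrecPred (fun p : Automaton k × Automaton k =>
      rationalSubset p.1 = rationalSubset p.2) := by
  refine ⟨?_, ?_, ?_⟩
  · intro σ₁ σ₂ _ _ M₁ M₂
    constructor
    · intro h w hw _ _
      obtain ⟨w', hw', hp⟩ := h ⟨w, hw, rfl⟩
      obtain ⟨w₁, h1, h2, h3⟩ := Pool.Agent.FIM.short_witness M₂ hw'
        ((proj_eq_iff w w').1 hp.symm)
      exact ⟨w₁, h1, h2, ((proj_eq_iff w w₁).2 h3).symm⟩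
    · intro h
      by_contra hcon
      rw [Set.not_subset] at hcon
      obtain ⟨m, ⟨w, hw, rfl⟩, hm⟩ := hcon
      have h2 : ∀ w' ∈ M₂.accepts, ¬ Pool.Agent.FIM.Same w w' := by
        intro w' hw' hs
        exact hm ⟨w', hw', ((proj_eq_iff w w').2 hs).symm⟩
      obtain ⟨w₁, g1, g2, g3, g4⟩ := Pool.Agent.FIM.small_counterexample M₁ M₂ hw h2
      obtain ⟨w', k1, _, k3⟩ := h w₁ g1 (by
        rintro u ⟨u', rfl⟩
        refine (Pool.Agent.FIM.norm_le_pos u).trans (g3 _ ?_)
        rw [Pool.Agent.FIM.mem_vis_append]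
        exact Or.inl (Pool.Agent.FIM.pos_mem_vis _ _)) g4
      exact g2 w' k1 ((proj_eq_iff w₁ w').1 k3.symm)
  · exact Pool.Agent.FIM.prim_check.of_eq subset_iff
  · have h1 : PrimrecPred (fun p : Automaton k × Automaton k =>
        Pool.Agent.FIM.Check p ∧ Pool.Agent.FIM.Check (p.2, p.1)) :=
      PrimrecPred.and Pool.Agent.FIM.prim_check
        (Pool.Agent.FIM.prim_check.comp (Primrec.pair Primrec.snd Primrec.fst))
    refine h1.of_eq ?_
    intro p
    rw [subset_iff, subset_iff]
    exact Set.Subset.antisymm_iff.symm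

end Pool.Agent.Results.MP_61c0e4_al.SmallCounterexample
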